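import Pool.Agent.Helper49.KX.Thm
import Pool.Agent.Helper38.KX.M_EVM
import Pool.Agent.Helper36.KX.M_ALG
import Pool.Agent.Helper80.KX.M_BBM
import Pool.Agent.Helper16.KX.M_BBA
import Pool.Agent.Helper48.KX.M_ABS
import Pool.Agent.Helper76.KX.M_WIA
import Pool.Agent.Helper90.KX.M_WIN
import Pool.Agent.Helper60.KX.M_LOC
import Pool.Agent.Helper40.KX.M_ASM
import Pool.Agent.Helper84.KX.M_SYN
import Pool.Agent.Helper92.KX.M_GAP
import Pool.Agent.Helper89.KX.M_TOW
import Pool.Agent.Helper49.KX.M_FLX
import Pool.Agent.Helper79.KX.M_OPN

/-!
# MP_c973ff_an: finite sums satisfy the exchange condition, minimal Cantor systems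

Let `X` be a compact, metric, totally disconnected, infinite space (for instance the Cantor set) and `h` a minimal
homeomorphism of `X`.

(1) The algebraic crossed product of `C(X)` by `h` (the algebra of the finite sums `∑ f_n u^n` with arbitrary continuous
coefficients) is an exchange ring.

(2) For every `p ∈ [1, ∞)` all finite sums satisfy the exchange condition in `A = F^p_r(ℤ, X, h)`, and the set of all `x ∈ A` which
satisfy it is open and dense.

Outline of the proof.  Let `x` be a finite sum.  If `x(1-x) = 0`, `x` is idempotent.  Otherwise `x(1-x)s` is the identity on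
a small clopen set `V`, in the sense that it has a compression `1_V`.  On Kakutani-Rokhlin towers with long return
times `x` acts, on vectors which vanish near the cuts, by finite matrices, and `ran x + ran (1-x)` contains all such vectors.
So every window is a direct sum of a space in `ran x`, a space in `ran (1-x)` and a remainder whose dimension is bounded
independently of the length of the window.  The vectors `x(1-x)s e_τ` (`τ` a visit to `V`) lie in both
ranges and are more numerous than the remainder, and they absorb it.  The choices can be made locally constant.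
-/

set_option autoImplicit false

namespace Pool.Agent.Results.MP_c973ff_an.FiniteSumsCantor

open Pool.Agent.Helper49.KX Topology
open scoped ENNReal

theorem result :
    ∀ (X : Type) [MetricSpace X] [CompactSpace X] [TotallyDisconnectedSpace X] [Infinite X] (h : X ≃ₜ X), Minl h →
      AlgEx h ∧ ∀ (p : ℝ≥0∞) [Fact (1 ≤ p)], p ≠ ∞ → FpEx p h := by
  intro X _ _ _ _ h hm
  exact kxFinal Pool.Agent.Helper38.KX.hEVM Pool.Agent.Helper36.KX.hALG Pool.Agent.Helper80.KX.hBBM
    Pool.Agent.Helper16.KX.hBBA Pool.Agent.Helper48.KX.hABS Pool.Agent.Helper76.KX.hWIA Pool.Agent.Helper90.KX.hWIN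
    Pool.Agent.Helper60.KX.hLOC Pool.Agent.Helper40.KX.hASM Pool.Agent.Helper84.KX.hSYN Pool.Agent.Helper92.KX.hGAP
    Pool.Agent.Helper89.KX.hTOW Pool.Agent.Helper49.KX.hFLX Pool.Agent.Helper79.KX.hOPN X h hm

end Pool.Agent.Results.MP_c973ff_an.FiniteSumsCantor
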