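import Pool.Agent.Helper49.KX.Thm
import Pool.Agent.Helper49.KR.Fin
import Pool.Agent.Helper38.KX.M_EVM
import Pool.Agent.Helper36.KX.M_ALG
import Pool.Agent.Helper80.KX.M_BBM
import Pool.Agent.Helper16.KX.M_BBA
import Pool.Agent.Helper48.KX.M_ABS
import Pool.Agent.Helper84.KX.M_SYN
import Pool.Agent.Helper79.KX.M_OPN
import Pool.Agent.Helper72.KR.M_EMB
import Pool.Agent.Helper6.KR.M_DEG
import Pool.Agent.Helper36.KR.M_CMM
import Pool.Agent.Helper40.KR.M_SPL
import Pool.Agent.Helper80.KR.M_LSC
import Pool.Agent.Helper28.KR.M_EQD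
import Pool.Agent.Helper60.KR.M_AVG
import Pool.Agent.Helper2.KR.M_DSM
import Pool.Agent.Helper2.KR.M_MNM
import Pool.Agent.Helper48.KR.M_CNT
import Pool.Agent.Helper13.KR.M_GEN
import Pool.Agent.Helper47.KR.M_NEM
import Pool.Agent.Helper78.KR.M_PCN
import Pool.Agent.Helper79.KR.M_PTA
import Pool.Agent.Helper78.KR.M_PTH
import Pool.Agent.Helper8.KR.M_FMP
import Pool.Agent.Helper69.KR.M_ROT
import Pool.Agent.Helper3.KR.M_TWR
import Pool.Agent.Helper12.KR.M_ADM
import Pool.Agent.Helper74.KR.M_BLK
import Pool.Agent.Helper74.KR.M_BLC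
import Pool.Agent.Helper8.KR.M_BSM
import Pool.Agent.Helper74.KR.M_TRI
import Pool.Agent.Helper69.KR.M_PRT
import Pool.Agent.Helper8.KR.M_WMT
import Pool.Agent.Helper41.KR.M_REL
import Pool.Agent.Helper3.KR.M_ASR
import Pool.Agent.Helper8.KR.M_FLR
import Pool.Agent.Helper91.KR.M_CNJ
import Pool.Agent.Helper15.KR.M_CIR

/-!
# MP_c973ff_an: finite sums satisfy the exchange condition, irrational rotations

Let `h` be an irrational rotation of the circle.

(1) The algebraic crossed product of `C(S^1)` by `h` (the algebra of the finite sums `∑ f_n u^n` with arbitrary continuous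
coefficients) is an exchange ring.

(2) For every `p ∈ [1, ∞)` all finite sums satisfy the exchange condition in `A = F^p_r(ℤ, S^1, h)`, and the set of all
`x ∈ A` which satisfy it is open and dense.

Outline of the proof.  There is no idempotent in `C(S^1)`, so the Kakutani-Rokhlin towers of the Cantor case are replaced by
blocks over overlapping arcs.  Let `x` be a finite sum with `x(1-x) ≠ 0`.  Then `x(1-x)s` is nearly the identity on a short arc.
On an orbit segment of length `r`, on vectors which vanish near the ends, `x` acts by a matrix; its compression has large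
rank and `ran x + ran (1-x)` contains all such vectors.  So at every base point the admissible data (bases of the window
adapted to `x` and `1-x`, with flexible vectors that absorb the remainder) form the complement of a complex
hypersurface in a complex vector space.  Such complements are connected, so the data at the two ends of the arcs of the
towers can be joined by paths.  There are three towers, of heights `q1`, `q2` and `q1 + q2`, the third one over the overlaps.
-/

set_option autoImplicit false

namespace Pool.Agent.Results.MP_c973ff_an.FiniteSumsRotation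

open Pool.Agent.Helper49.KX
open scoped ENNReal

theorem result :
    ∀ (θ : ℝ), Irrational θ → ∀ (h : Circle ≃ₜ Circle), h = Homeomorph.mulLeft (Circle.exp (2 * Real.pi * θ)) →
      AlgEx h ∧ ∀ (p : ℝ≥0∞) [Fact (1 ≤ p)], p ≠ ∞ → FpEx p h := by
  intro θ hθ h hh
  have hsum := Pool.Agent.Helper49.KR.rot_sum
    Pool.Agent.Helper38.KX.hEVM Pool.Agent.Helper36.KX.hALG Pool.Agent.Helper80.KX.hBBM Pool.Agent.Helper16.KX.hBBA
    Pool.Agent.Helper48.KX.hABS Pool.Agent.Helper84.KX.hSYN Pool.Agent.Helper72.KR.hEMB Pool.Agent.Helper6.KR.hDEG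
    Pool.Agent.Helper36.KR.hCMM Pool.Agent.Helper40.KR.hSPL Pool.Agent.Helper80.KR.hLSC Pool.Agent.Helper28.KR.hEQD
    Pool.Agent.Helper60.KR.hAVG Pool.Agent.Helper2.KR.hDSM Pool.Agent.Helper2.KR.hMNM Pool.Agent.Helper48.KR.hCNT
    Pool.Agent.Helper13.KR.hGEN Pool.Agent.Helper47.KR.hNEM Pool.Agent.Helper78.KR.hPCN Pool.Agent.Helper79.KR.hPTA
    Pool.Agent.Helper78.KR.hPTH Pool.Agent.Helper8.KR.hFMP Pool.Agent.Helper69.KR.hROT Pool.Agent.Helper3.KR.hTWR
    Pool.Agent.Helper12.KR.hADM Pool.Agent.Helper74.KR.hBLK Pool.Agent.Helper74.KR.hBLC Pool.Agent.Helper8.KR.hBSM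
    Pool.Agent.Helper74.KR.hTRI Pool.Agent.Helper69.KR.hPRT Pool.Agent.Helper8.KR.hWMT Pool.Agent.Helper41.KR.hREL
    Pool.Agent.Helper3.KR.hASR Pool.Agent.Helper8.KR.hFLR
  exact Pool.Agent.Helper49.KR.krFinal Pool.Agent.Helper38.KX.hEVM Pool.Agent.Helper79.KX.hOPN
    Pool.Agent.Helper91.KR.hCNJ Pool.Agent.Helper15.KR.hCIR hsum θ hθ h hh

end Pool.Agent.Results.MP_c973ff_an.FiniteSumsRotation
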