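import Pool.Agent.Helper63.XP.Fin

/-!
# MP_c973ff_an: the exchange property fails uniformly in `F^p_r(ℤ, X, h)` for all `p ≠ 2`, cases (a) and (b)

The definitions are in `Pool/Agent/Helper63/XP/Stmt.lean` (`Exch`, `ExchLe`, `UniformlyFails`, `Fails`, `Minimal`) and in
`Pool/Agent/Helper49/KX/Defs.lean` (`IsFp` and the definitions above it).
-/

set_option autoImplicit false

namespace Pool.Agent.Results.MP_c973ff_an.UniformExchangeFailsAllP

open scoped ENNReal
open Pool.Agent.Helper63.XPS

/-- For all `p ∈ [1, ∞)`, `p ≠ 2`, for every minimal homeomorphism `h` of an infinite totally disconnected compact metrizable space (in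
particular of the Cantor set) and for every irrational rotation `h` of the unit circle, the exchange property fails uniformly in
`F^p_r(ℤ, X, h)` on every ball of radius `r > 1`, and the algebra of the bounded sequences in `F^p_r(ℤ, X, h)` is not an exchange ring. -/
theorem result : ∀ (p : ℝ≥0∞) [Fact (1 ≤ p)], p ≠ ∞ → p ≠ 2 →
    (∀ (X : Type) [TopologicalSpace X] [TopologicalSpace.MetrizableSpace X] [CompactSpace X] [TotallyDisconnectedSpace X]
      [Infinite X] (h : X ≃ₜ X), Minimal h → Fails p h) ∧
    ∀ θ : ℝ, Irrational θ → Fails p (Homeomorph.mulLeft (Circle.exp (2 * Real.pi * θ))) :=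
  Pool.Agent.Helper63.XP.thm

end Pool.Agent.Results.MP_c973ff_an.UniformExchangeFailsAllP
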